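import Pool.Agent.Run7.h705.MC.SURJ2
import Pool.Agent.Run7.h568.MC.ZLemmas
import Pool.Agent.Run7.h568.MC.Iface2
import Pool.Agent.Run7.h778.MC.MOB

/-!
# Piece SURJ, part 3: every element of `W0 ∩ Dom` is the linear coordinate of a metric
-/

set_option linter.unusedSectionVars false

namespace Run7.h705.MC

open Real Matrix Run7.h568 Run7.h568.MC Run7.h568.MC.Pattern

universe u

variable {V : Type u} [Fintype V] {P : Pattern V}

/-! ### The linear recursion -/

noncomputable def cf (v : P.W) (z : P.Z) : ℝ := if Zh z then Real.exp (v.1 (ZA z)) else 1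

noncomputable def df (v : P.W) (z : P.Z) : ℝ := if Zh z then Real.exp (v.1 (ZA z)) else 0

noncomputable def CC (v : P.W) : ℕ → P.Z → ℝ
  | 0, _ => 1
  | n + 1, z => cf v z * CC v n (ZA z)

noncomputable def DC (v : P.W) : ℕ → P.Z → ℝ
  | 0, _ => 0
  | n + 1, z => CC v n (ZA z) * df v z + DC v n (ZA z)

theorem cf_pos (v : P.W) (z : P.Z) : 0 < cf v z := by
  unfold cf
  split_ifs
  · exact Real.exp_pos _
  · exact one_pos

theorem df_nonneg (v : P.W) (z : P.Z) : 0 ≤ df v z := by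
  unfold df
  split_ifs
  · exact (Real.exp_pos _).le
  · exact le_rfl

theorem CC_pos (v : P.W) (n : ℕ) : ∀ z, 0 < CC v n z := by
  induction n with
  | zero => exact fun z => one_pos
  | succ n ih => exact fun z => mul_pos (cf_pos v z) (ih _)

theorem DC_nonneg (v : P.W) (n : ℕ) : ∀ z, 0 ≤ DC v n z := by
  induction n with
  | zero => exact fun z => le_rfl
  | succ n ih => exact fun z => add_nonneg (mul_nonneg (CC_pos v n _).le (df_nonneg v z)) (ih _)

theorem DC_pos (v : P.W) (n : ℕ) : ∀ z, (∃ i < n, Zh (ZA^[i] z)) → 0 < DC v n z := by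
  induction n with
  | zero => rintro z ⟨i, hi, _⟩; omega
  | succ n ih =>
    rintro z ⟨i, hi, h⟩
    rcases i with _ | i
    · have h1 : 0 < df v z := by
        unfold df
        rw [if_pos (show Zh z from h)]
        exact Real.exp_pos _
      exact add_pos_of_pos_of_nonneg (mul_pos (CC_pos v n _) h1) (DC_nonneg v n _)
    · rw [Function.iterate_succ_apply] at h
      exact add_pos_of_nonneg_of_pos (mul_nonneg (CC_pos v n _).le (df_nonneg v z))
        (ih _ ⟨i, by omega, h⟩)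

theorem CC_DC_comm (v : P.W) (n : ℕ) : ∀ (z : P.Z) (x : ℝ),
    CC v n (ZA z) * (cf v z * x + df v z) + DC v n (ZA z) =
      cf v (ZA^[n] z) * (CC v n z * x + DC v n z) + df v (ZA^[n] z) := by
  induction n with
  | zero => intro z x; simp [CC, DC]
  | succ n ih =>
    intro z x
    rw [Function.iterate_succ_apply]
    have h := ih (ZA z) (cf v z * x + df v z)
    simp only [CC, DC] at h ⊢
    have e : cf v z * CC v n (ZA z) * x + (CC v n (ZA z) * df v z + DC v n (ZA z)) =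
        CC v n (ZA z) * (cf v z * x + df v z) + DC v n (ZA z) := by ring
    rw [e, ← h]
    ring

theorem CC_eq (v : P.W) (n : ℕ) : ∀ z : P.Z, CC v n z =
    Real.exp (∑ i ∈ Finset.range n, if Zh (ZA^[i] z) then v.1 (ZA^[i + 1] z) else 0) := by
  induction n with
  | zero => intro z; simp [CC]
  | succ n ih =>
    intro z
    rw [Finset.sum_range_succ', Real.exp_add]
    simp only [CC, Function.iterate_succ_apply, Function.iterate_zero, id]
    rw [ih (ZA z), mul_comm]
    congr 1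
    unfold cf
    split_ifs
    · rfl
    · rw [Real.exp_zero]

theorem ZA_per (z : P.Z) : ZA^[per P] z = z := by
  classical
  set e : Equiv.Perm P.Z := Equiv.ofBijective ZA ZA_bijective with he
  have h1 : e ^ Fintype.card (Equiv.Perm P.Z) = 1 := pow_card_eq_one
  rw [Fintype.card_perm] at h1
  have h2 : ZA^[per P] z = (e ^ per P) z := by
    rw [← Equiv.Perm.iterate_eq_pow]
    rfl
  rw [h2]
  unfold per
  have h3 : (Fintype.card P.Z).factorial = (Fintype.card P.Z).factorial := rfl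
  rw [h1]
  rfl

theorem exists_E {v : P.W} (hD : v ∈ Dom P) : ∃ E : P.Z → ℝ, (∀ z, 0 < E z) ∧
    (∀ z, Zh z → E (ZA z) = Real.exp (v.1 (ZA z)) * (1 + E z)) ∧
    ∀ z, ¬ Zh z → E (ZA z) = E z := by
  have hC : ∀ z, CC v (per P) z < 1 := by
    intro z
    rw [CC_eq]
    have := hD z
    unfold cyc at this
    rw [← Real.exp_zero]
    exact Real.exp_lt_exp.2 this
  have hZ : ∀ z : P.Z, ∃ i < per P, Zh (ZA^[i] z) := by
    intro z
    by_contra hc
    push Not at hc
    have := hD z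
    unfold cyc at this
    rw [Finset.sum_eq_zero] at this
    · exact lt_irrefl _ this
    · intro i hi
      rw [if_neg (hc i (Finset.mem_range.1 hi))]
  have hstep : ∀ z : P.Z, DC v (per P) (ZA z) / (1 - CC v (per P) (ZA z)) =
      cf v z * (DC v (per P) z / (1 - CC v (per P) z)) + df v z := by
    intro z
    have h1 := hC z
    have h2 := hC (ZA z)
    have h3 : (1 - CC v (per P) z) ≠ 0 := by linarith
    have h4 : (1 - CC v (per P) (ZA z)) ≠ 0 := by linarith
    set x := DC v (per P) z / (1 - CC v (per P) z) with hx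
    have h5 : CC v (per P) z * x + DC v (per P) z = x := by
      rw [hx]; field_simp; ring
    have h6 := CC_DC_comm v (per P) z x
    rw [h5, ZA_per] at h6
    rw [div_eq_iff h4]
    linarith
  refine ⟨fun z => DC v (per P) z / (1 - CC v (per P) z), fun z =>
    div_pos (DC_pos v _ z (hZ z)) (by linarith [hC z]), fun z hz => ?_, fun z hz => ?_⟩
  · have h := hstep z
    unfold cf df at h
    rw [if_pos hz, if_pos hz] at h
    change DC v (per P) (ZA z) / (1 - CC v (per P) (ZA z)) = _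
    rw [h]
    ring
  · have h := hstep z
    unfold cf df at h
    rw [if_neg hz, if_neg hz] at h
    change DC v (per P) (ZA z) / (1 - CC v (per P) (ZA z)) = _
    rw [h]
    ring

/-! ### Gauge quantities from `E` -/

/-- a solution of the recursion -/
structure EG (v : P.W) where
  E : P.Z → ℝ
  pos : ∀ z, 0 < E z
  step : ∀ z, Zh z → E (ZA z) = Real.exp (v.1 (ZA z)) * (1 + E z)
  flat : ∀ z, ¬ Zh z → E (ZA z) = E z

namespace EG

variable {v : P.W} (e : EG v)

noncomputable def muZ (z : P.Z) : ℝ := if Zh z then 1 + 1 / e.E z else 1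

noncomputable def LamZ (z : P.Z) : ℝ := Real.exp (v.1 z) / (e.E z * e.E (Zk z))

noncomputable def The (p : V) : ℝ :=
  Real.exp (v.2 p) / (e.E (Sum.inl p) * e.E (Sum.inl (P.rho p)))

noncomputable def mu (p : V) : ℝ :=
  e.muZ (Sum.inl p) * (if h : P.Diag p then e.muZ (Sum.inr ⟨p, h⟩) else 1)

noncomputable def Lam (p : V) : ℝ := e.LamZ (Sum.inl p)

theorem muZ_h {z : P.Z} (h : Zh z) : e.muZ z = 1 + 1 / e.E z := if_pos h

theorem muZ_gt {z : P.Z} (h : Zh z) : 1 < e.muZ z := by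
  rw [e.muZ_h h]
  have := one_div_pos.2 (e.pos z)
  linarith

theorem muZ_ge (z : P.Z) : 1 ≤ e.muZ z := by
  by_cases h : Zh z
  · exact (e.muZ_gt h).le
  · unfold muZ; rw [if_neg h]

theorem LamZ_pos (z : P.Z) : 0 < e.LamZ z :=
  div_pos (Real.exp_pos _) (mul_pos (e.pos _) (e.pos _))

theorem The_pos (p : V) : 0 < e.The p :=
  div_pos (Real.exp_pos _) (mul_pos (e.pos _) (e.pos _))

theorem LamZ_kap (hv : v ∈ W0 P) (z : P.Z) : e.LamZ (Zk z) = e.LamZ z := by
  unfold LamZ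
  rw [hv.1 z, Zk_Zk, mul_comm (e.E z)]

theorem tri {z : P.Z} (h : Zh z) :
    e.LamZ (ZA z) = (1 - 1 / e.muZ z) * (e.muZ (Zt z) - 1) := by
  have h1 := e.pos z
  have h2 := e.pos (Zt z)
  have h3 := Real.exp_pos (v.1 (ZA z))
  rw [e.muZ_h h, e.muZ_h ((Zh_Zt z).2 h)]
  unfold LamZ
  rw [e.step z h]
  have e1 : Zk (ZA z) = Zt z := rfl
  rw [e1]
  have h4 : 1 + e.E z ≠ 0 := by linarith
  field_simp
  ring

theorem LamZ_quad (hv : v ∈ W0 P) {z : P.Z} (h : ¬ Zh z) : e.LamZ (ZA z) = e.LamZ z := by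
  unfold LamZ
  rw [hv.2.1 z h, e.flat z h]
  congr 2
  rcases z with p | p
  · have hq : P.Quad p := not_not.1 h
    have h1 : ¬ Zh (Sum.inl (P.tau p) : P.Z) := by
      rw [Zh_inl, not_not]; exact P.quad_tau.2 hq
    have h2 := e.flat _ h1
    rw [ZA_inl_not (not_diag_of_quad (P.quad_tau.2 hq)), P.quad_A_kap hq] at h2
    rw [ZA_inl_not (not_diag_of_quad hq), Zk_inl, Zk_inl, P.kap_A, h2]
  · exact absurd trivial h

theorem The_rho (hv : v ∈ W0 P) (p : V) : e.The (P.rho p) = e.The p := by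
  unfold The
  rw [hv.2.2.1 p, P.rho_rho, mul_comm (e.E _)]

theorem mu_not {p : V} (h : ¬ P.Diag p) : e.mu p = e.muZ (Sum.inl p) := by
  unfold mu
  rw [dif_neg h, mul_one]

theorem mu_diag {p : V} (h : P.Diag p) :
    e.mu p = e.muZ (Sum.inl p) * e.muZ (Sum.inr ⟨p, h⟩) := by
  unfold mu
  rw [dif_pos h]

theorem mu_pos (p : V) : 0 < e.mu p := by
  unfold mu
  have h1 := e.muZ_ge (Sum.inl p)
  split_ifs with h
  · have h2 := e.muZ_ge (Sum.inr ⟨p, h⟩)
    exact mul_pos (by linarith) (by linarith)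
  · linarith

theorem exp_lad (p : V) : Real.exp (lad v.1 p) * (e.E (Sum.inl p) * e.mu p) =
    e.E (Sum.inl (P.A p)) := by
  have h0 := e.pos (Sum.inl p)
  unfold lad
  by_cases hq : P.Quad p
  · have h1 := e.flat (Sum.inl p) (by rw [Zh_inl, not_not]; exact hq)
    rw [ZA_inl_not (not_diag_of_quad hq)] at h1
    have h2 : e.muZ (Sum.inl p) = 1 := by
      unfold muZ
      rw [if_neg]
      rw [Zh_inl, not_not]; exact hq
    rw [if_pos hq, Real.exp_zero, e.mu_not (not_diag_of_quad hq), h2, h1]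
    ring
  · rw [if_neg hq]
    by_cases hd : P.Diag p
    · have h1 := e.step (Sum.inl p) hq
      have h2 := e.step (Sum.inr ⟨p, hd⟩) trivial
      rw [ZA_inl_diag hd] at h1
      rw [ZA_inr] at h2
      have h3 := e.pos (Sum.inr ⟨p, hd⟩)
      rw [dif_pos hd, Real.exp_add, e.mu_diag hd, e.muZ_h (z := Sum.inl p) hq,
        e.muZ_h (z := Sum.inr ⟨p, hd⟩) trivial]
      change e.E (Sum.inl (P.A p)) = _ at h2
      rw [h2]
      have h4 : e.E (Sum.inr ⟨p, hd⟩) ≠ 0 := h3.ne'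
      have h5 : e.E (Sum.inl p) * (1 + 1 / e.E (Sum.inl p)) = 1 + e.E (Sum.inl p) := by
        field_simp
        ring
      have h6 : Real.exp (v.1 (Sum.inr ⟨p, hd⟩)) * Real.exp (v.1 (Sum.inl (P.A p))) *
          (e.E (Sum.inl p) * ((1 + 1 / e.E (Sum.inl p)) * (1 + 1 / e.E (Sum.inr ⟨p, hd⟩)))) =
          Real.exp (v.1 (Sum.inl (P.A p))) *
          ((Real.exp (v.1 (Sum.inr ⟨p, hd⟩)) * (e.E (Sum.inl p) * (1 + 1 / e.E (Sum.inl p)))) *
          (1 + 1 / e.E (Sum.inr ⟨p, hd⟩))) := by ring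
      rw [h6, h5, ← h1]
      have h7 : e.E (Sum.inr ⟨p, hd⟩) * (1 + 1 / e.E (Sum.inr ⟨p, hd⟩)) =
          1 + e.E (Sum.inr ⟨p, hd⟩) := by
        field_simp
        ring
      rw [h7]
    · have h1 := e.step (Sum.inl p) hq
      rw [ZA_inl_not hd] at h1
      rw [dif_neg hd, zero_add, e.mu_not hd, e.muZ_h (z := Sum.inl p) hq, h1]
      congr 1
      field_simp
      ring

theorem The_A (hv : v ∈ W0 P) (p : V) : e.The (P.A p) * e.mu p = e.The p * e.mu (P.iota p) := by
  have h1 := e.exp_lad p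
  have h2 := e.exp_lad (P.iota p)
  rw [P.A_iota] at h2
  have h3 : v.2 (P.A p) + lad v.1 (P.iota p) = v.2 p + lad v.1 p := by
    have := hv.2.2.2 p
    linarith
  have h4 : Real.exp (v.2 (P.A p)) * Real.exp (lad v.1 (P.iota p)) =
      Real.exp (v.2 p) * Real.exp (lad v.1 p) := by
    rw [← Real.exp_add, ← Real.exp_add, h3]
  have p0 := e.pos (Sum.inl p)
  have p1 := e.pos (Sum.inl (P.A p))
  have p2 := e.pos (Sum.inl (P.iota p))
  have p3 := e.pos (Sum.inl (P.rho p))
  have m0 := e.mu_pos p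
  have m1 := e.mu_pos (P.iota p)
  have l0 := Real.exp_pos (lad v.1 p)
  have l1 := Real.exp_pos (lad v.1 (P.iota p))
  unfold The
  rw [P.rho_A, ← h1, ← h2]
  have h5 : Real.exp (v.2 (P.A p)) = Real.exp (v.2 p) * Real.exp (lad v.1 p) /
      Real.exp (lad v.1 (P.iota p)) := by
    rw [eq_div_iff l1.ne', h4]
  rw [h5]
  field_simp

theorem mu_quad (p : V) (hq : P.Quad p) : e.mu p = 1 := by
  rw [e.mu_not (not_diag_of_quad hq)]
  unfold muZ
  rw [if_neg]
  rw [Zh_inl, not_not]; exact hq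

theorem mu_gt (hv : v ∈ W0 P) (p : V) (hq : ¬ P.Quad p) : 1 + e.Lam p < e.mu p := by
  obtain ⟨z, hz⟩ := ZA_bijective.2 (Zk (Sum.inl p : P.Z))
  have h1 : Zt z = Sum.inl p := by
    unfold Zt
    rw [hz, Zk_Zk]
  have h2 : Zh z := by
    rw [← Zh_Zt z, h1]; exact hq
  have h3 := e.tri h2
  rw [h1, hz, e.LamZ_kap hv] at h3
  have h4 := e.muZ_gt h2
  have h5 := e.muZ_gt (z := Sum.inl p) hq
  have h6 : 0 < 1 / e.muZ z := one_div_pos.2 (by linarith)
  have h7 : e.Lam p < e.muZ (Sum.inl p) - 1 := by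
    unfold Lam
    rw [h3]
    nlinarith
  have h8 : e.muZ (Sum.inl p) ≤ e.mu p := by
    unfold mu
    split_ifs with h
    · have := e.muZ_ge (Sum.inr ⟨p, h⟩)
      nlinarith
    · linarith
  linarith

theorem Lam_quad (hv : v ∈ W0 P) (p : V) (hq : P.Quad p) : e.Lam (P.A p) = e.Lam p := by
  have h := e.LamZ_quad hv (z := Sum.inl p) (by rw [Zh_inl, not_not]; exact hq)
  rw [ZA_inl_not (not_diag_of_quad hq)] at h
  exact h

theorem Lam_hex (p : V) (hp : P.Hex p) :
    e.Lam (P.A p) = (1 - 1 / e.mu p) * (e.mu (P.tau p) - 1) := by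
  have h := e.tri (z := Sum.inl p) (P.not_quad_of_hex hp)
  rw [ZA_inl_not (not_diag_of_hex hp), Zt_inl_not (not_diag_of_hex hp)] at h
  rw [e.mu_not (not_diag_of_hex hp), e.mu_not (not_diag_of_hex (P.hex_tau.2 hp))]
  exact h

theorem Lam_oct (hv : v ∈ W0 P) (p : V) (hp : P.Diag p) : ∃ a0 b0 a2 b2 : ℝ,
    1 < a0 ∧ 1 < b0 ∧ 1 < a2 ∧ 1 < b2 ∧
    e.mu p = a0 * b0 ∧ e.mu (P.tau (P.tau p)) = a2 * b2 ∧
    e.Lam (P.A p) = (1 - 1 / b0) * (e.mu (P.tau p) - 1) ∧
    e.Lam (P.A (P.tau p)) = (1 - 1 / e.mu (P.tau p)) * (a2 - 1) ∧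
    e.Lam (P.A (P.tau (P.tau p))) = (1 - 1 / b2) * (e.mu (P.tau (P.tau (P.tau p))) - 1) ∧
    e.Lam (P.A (P.tau (P.tau (P.tau p)))) =
      (1 - 1 / e.mu (P.tau (P.tau (P.tau p)))) * (a0 - 1) ∧
    (1 - 1 / a0) * (b2 - 1) = (1 - 1 / a2) * (b0 - 1) := by
  have ho := hp.oct
  have h2 : P.Diag (P.tau (P.tau p)) := (P.diag_tau_tau ho).2 hp
  have n1 : ¬ P.Diag (P.tau p) := fun h => (P.diag_tau ho).1 h hp
  have n3 : ¬ P.Diag (P.tau (P.tau (P.tau p))) := fun h => (P.diag_tau h2.oct).1 h h2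
  have e4 : P.tau (P.tau (P.tau (P.tau p))) = p := ho.1
  have z0 : Zh (Sum.inl p : P.Z) := ho.2
  have z1 : Zh (Sum.inl (P.tau p) : P.Z) := fun h => ho.2 (P.quad_tau.1 h)
  have z2 : Zh (Sum.inl (P.tau (P.tau p)) : P.Z) := h2.oct.2
  have z3 : Zh (Sum.inl (P.tau (P.tau (P.tau p))) : P.Z) := fun h => h2.oct.2 (P.quad_tau.1 h)
  have y0 : Zh (Sum.inr ⟨p, hp⟩ : P.Z) := trivial
  have y2 : Zh (Sum.inr ⟨P.tau (P.tau p), h2⟩ : P.Z) := trivial
  refine ⟨e.muZ (Sum.inl p), e.muZ (Sum.inr ⟨p, hp⟩), e.muZ (Sum.inl (P.tau (P.tau p))),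
    e.muZ (Sum.inr ⟨P.tau (P.tau p), h2⟩), e.muZ_gt z0, e.muZ_gt y0, e.muZ_gt z2, e.muZ_gt y2,
    e.mu_diag hp, e.mu_diag h2, ?_, ?_, ?_, ?_, ?_⟩
  · have h := e.tri y0
    rw [ZA_inr, Zt_inr] at h
    rw [e.mu_not n1]
    exact h
  · have h := e.tri z1
    rw [ZA_inl_not n1, Zt_inl_not n1] at h
    rw [e.mu_not n1]
    exact h
  · have h := e.tri y2
    rw [ZA_inr, Zt_inr] at h
    rw [e.mu_not n3]
    exact h
  · have h := e.tri z3
    rw [ZA_inl_not n3, Zt_inl_not n3, e4] at h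
    rw [e.mu_not n3]
    exact h
  · have h := e.tri z0
    have h' := e.tri z2
    rw [ZA_inl_diag hp, Zt_inl_diag hp] at h
    rw [ZA_inl_diag h2, Zt_inl_diag h2] at h'
    have hk := e.LamZ_kap hv (Sum.inr ⟨p, hp⟩)
    rw [Zk_inr, h] at hk
    have e5 : (Sum.inr ⟨P.tau (P.tau (P.tau (P.tau p))), (P.diag_tau_tau h2.1).2 h2⟩ : P.Z) =
        Sum.inr ⟨p, hp⟩ := by
      congr 1
      exact Subtype.ext e4
    rw [e5] at h'
    exact hk.symm.trans h'

/-- the positive solution `R` -/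
theorem exists_R : ∃ R : V → ℝ, (∀ p, 0 < R p) ∧ ∀ p, R p * (R (P.rho (P.kap p)) +
    e.The (P.rho (P.kap p))) = (1 + e.Lam p) * R (P.rho (P.kap p)) + e.The (P.rho (P.kap p)) := by
  obtain ⟨a, h1, h2, -, -⟩ := Run7.h778.MC.mob (V := V)
    (Equiv.ofBijective (fun p => P.rho (P.kap p)) (P.rho_bij.comp P.kap_bij))
    (fun p => e.The (P.rho (P.kap p))) (fun p => 1 + e.Lam p)
    (fun p => e.The (P.rho (P.kap p))) (fun _ => 1) (fun p => e.The_pos _)
    (fun p => by have := e.LamZ_pos (Sum.inl p); change 0 < 1 + e.LamZ (Sum.inl p); linarith)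
    (fun p => e.The_pos _) (fun _ => one_pos) (fun p => by
      have h1 := e.LamZ_pos (Sum.inl p)
      have h2 := e.The_pos (P.rho (P.kap p))
      change 0 < (1 + e.LamZ (Sum.inl p)) * e.The _ - e.The _ * 1
      nlinarith [mul_pos h1 h2])
  refine ⟨a 0, h1 0, fun p => ?_⟩
  have h3 := h2 0 p
  simp only [Equiv.ofBijective_apply, Pi.zero_apply, neg_zero, Real.exp_zero, one_mul] at h3
  have h4 := h1 0 (P.rho (P.kap p))
  have h5 := e.The_pos (P.rho (P.kap p))
  rw [eq_div_iff (by linarith)] at h3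
  exact h3

/-- the gauge data -/
theorem exists_RG (hv : v ∈ W0 P) : ∃ g : RG P, g.mu = e.mu ∧ g.Lam = e.Lam ∧
    ∀ p, g.R p * g.S (P.rho p) = e.The p := by
  obtain ⟨R, hR, hR2⟩ := e.exists_R
  have hS : ∀ p, e.The p / R (P.rho p) * R (P.rho p) = e.The p := fun p =>
    div_mul_cancel₀ _ (hR _).ne'
  have hLp : ∀ p, 0 < e.Lam p := fun p => e.LamZ_pos _
  have hkey : ∀ p, (R p - 1) * (R (P.rho (P.kap p)) + e.The (P.rho (P.kap p))) =
      e.Lam p * R (P.rho (P.kap p)) := fun p => by linear_combination hR2 p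
  refine ⟨{ mu := e.mu, Lam := e.Lam, R := R, S := fun p => e.The p / R (P.rho p)
            R_gt := ?_, S_pos := ?_, Lam_pos := hLp, RS := ?_, Lam_kap := ?_, The_rho := ?_
            The_A := ?_, mu_quad := e.mu_quad, mu_gt := e.mu_gt hv, Lam_quad := e.Lam_quad hv
            hex := e.Lam_hex, oct := e.Lam_oct hv }, rfl, rfl, ?_⟩
  · intro p
    have h1 := hkey p
    have h2 := mul_pos (hLp p) (hR (P.rho (P.kap p)))
    rw [← h1] at h2
    have h3 := pos_of_mul_pos_left h2 (by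
      have := hR (P.rho (P.kap p))
      have := e.The_pos (P.rho (P.kap p))
      linarith)
    linarith
  · intro p
    exact div_pos (e.The_pos p) (hR _)
  · intro p
    have h1 := hkey p
    have h2 := (hR (P.rho (P.kap p)))
    rw [e.The_rho hv] at h1
    change (R p - 1) * (e.The (P.kap p) / R (P.rho (P.kap p)) + 1) = e.Lam p
    field_simp
    linarith
  · intro p
    exact e.LamZ_kap hv (Sum.inl p)
  · intro p
    rw [P.rho_rho, e.The_rho hv, mul_div_cancel₀ _ (hR _).ne', mul_div_cancel₀ _ (hR _).ne']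
  · intro p
    have e1 : P.rho (P.iota p) = P.A p := rfl
    have e2 : e.The (P.iota p) = e.The (P.A p) := by rw [← P.rho_A, e.The_rho hv]
    rw [P.rho_rho, e.The_rho hv, e1, e2, mul_div_cancel₀ _ (hR _).ne',
      mul_div_cancel₀ _ (hR _).ne', e.The_A hv]
  · intro p
    change R p * (e.The (P.rho p) / R (P.rho (P.rho p))) = e.The p
    rw [P.rho_rho, e.The_rho hv, mul_div_cancel₀ _ (hR _).ne']

theorem E_top (p : V) : e.E (Sum.inl (P.top p)) = e.E (Sum.inl p) := by
  have h : ∀ n : ℕ, ∀ p : V, Nat.find (P.alpha_face' p) = n →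
      e.E (Sum.inl (P.top p)) = e.E (Sum.inl p) := by
    intro n
    induction n with
    | zero =>
      intro p hp
      have h1 : ¬ P.Quad p := by
        have := Nat.find_spec (P.alpha_face' p)
        rw [hp] at this
        exact this
      rw [P.top_of_not_quad h1]
    | succ n ih =>
      intro p hp
      have h1 : P.Quad p := by
        have := Nat.find_min (P.alpha_face' p) (m := 0) (by omega)
        simpa using this
      have h2 : Nat.find (P.alpha_face' (P.A p)) = n := by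
        rw [Nat.find_eq_iff] at hp ⊢
        refine ⟨?_, ?_⟩
        · have := hp.1
          rwa [Function.iterate_succ_apply] at this
        · intro m hm
          have := hp.2 (m + 1) (by omega)
          rwa [Function.iterate_succ_apply] at this
      have h3 := e.flat (Sum.inl p) (by rw [Zh_inl, not_not]; exact h1)
      rw [ZA_inl_not (not_diag_of_quad h1)] at h3
      rw [P.top_of_quad h1, ih _ h2, h3]
  exact h _ p rfl

end EG

theorem surj : S_SURJ P := by
  intro v hv hD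
  obtain ⟨E, h1, h2, h3⟩ := exists_E hD
  let e : EG v := ⟨E, h1, h2, h3⟩
  obtain ⟨g, gmu, gLam, gThe⟩ := e.exists_RG hv
  refine ⟨g.metric, ?_⟩
  have hmu : ∀ p, g.metric.mu p = e.mu p := fun p => by rw [g.metric_mu, gmu]
  have hLam : ∀ p, g.metric.Lam p = e.Lam p := fun p => by rw [g.metric_Lam, gLam]
  have hThe : ∀ p, g.metric.The p = e.The p := fun p => by rw [g.metric_The, gThe]
  have hmuV : ∀ (p : V) (hp : P.Diag p), g.metric.muV p = e.muZ (Sum.inr ⟨p, hp⟩) := by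
    intro p hp
    unfold HypMetric.muV
    have n1 : ¬ P.Diag (P.tau p) := fun h => (P.diag_tau hp.oct).1 h hp
    have y0 : Zh (Sum.inr ⟨p, hp⟩ : P.Z) := trivial
    have h := e.tri y0
    rw [ZA_inr, Zt_inr] at h
    have z1 : Zh (Sum.inl (P.tau p) : P.Z) := fun h => hp.oct.2 (P.quad_tau.1 h)
    have m1 := e.muZ_gt z1
    have m0 := e.muZ_gt y0
    rw [hmu, hLam, e.mu_not n1]
    change (e.muZ (Sum.inl (P.tau p)) - 1) / (e.muZ (Sum.inl (P.tau p)) - 1 -
      e.LamZ (Sum.inl (P.A p))) = _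
    change e.LamZ (Sum.inl (P.A p)) = _ at h
    rw [h]
    have k1 : e.muZ (Sum.inl (P.tau p)) - 1 ≠ 0 := by linarith
    have k0 : e.muZ (Sum.inr ⟨p, hp⟩) ≠ 0 := by linarith
    have k2 : e.muZ (Sum.inl (P.tau p)) - 1 -
        (1 - 1 / e.muZ (Sum.inr ⟨p, hp⟩)) * (e.muZ (Sum.inl (P.tau p)) - 1) =
        (e.muZ (Sum.inl (P.tau p)) - 1) / e.muZ (Sum.inr ⟨p, hp⟩) := by
      field_simp
      ring
    rw [k2]
    field_simp
  have hmuZ : ∀ z, g.metric.muZ z = e.muZ z := by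
    rintro (p | ⟨p, hp⟩)
    · change (if P.Diag p then g.metric.mu p / g.metric.muV p else g.metric.mu p) = _
      split_ifs with h
      · rw [hmuV p h, hmu, e.mu_diag h, mul_div_cancel_right₀]
        have := e.muZ_ge (Sum.inr ⟨p, h⟩)
        linarith
      · rw [hmu, e.mu_not h]
    · exact hmuV p hp
  have hLamZ : ∀ z, g.metric.LamZ z = e.LamZ z := by
    rintro (p | ⟨p, hp⟩)
    · exact hLam p
    · change (1 - 1 / g.metric.muZ (Sum.inl p)) * (g.metric.muZ (Zk (Sum.inr ⟨p, hp⟩)) - 1) = _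
      rw [hmuZ, hmuZ]
      have h := e.tri (z := Sum.inl p) hp.oct.2
      rw [ZA_inl_diag hp, Zt_inl_diag hp] at h
      rw [h, Zk_inr]
  have hU : ∀ z, g.metric.U z = Real.log (E z) := by
    have hz : ∀ z, Zh z → -Real.log (e.muZ z - 1) = Real.log (E z) := by
      intro z hz
      rw [e.muZ_h hz, add_sub_cancel_left, one_div, Real.log_inv, neg_neg]
    rintro (p | ⟨p, hp⟩)
    · change -Real.log (g.metric.muZ (Sum.inl (P.top p)) - 1) = _
      rw [hmuZ, hz (Sum.inl (P.top p)) (P.not_quad_top p)]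
      exact congrArg Real.log (e.E_top p)
    · change -Real.log (g.metric.muZ (Sum.inr ⟨p, hp⟩) - 1) = _
      rw [hmuZ, hz (Sum.inr ⟨p, hp⟩) trivial]
  have hl : g.metric.lZ = v.1 := by
    funext z
    unfold HypMetric.lZ
    rw [hLamZ, hU, hU]
    change Real.log (Real.exp (v.1 z) / (E z * E (Zk z))) + _ + _ = _
    rw [Real.log_div (Real.exp_pos _).ne' (mul_pos (h1 _) (h1 _)).ne',
      Real.log_mul (h1 _).ne' (h1 _).ne', Real.log_exp]
    ring
  have hw : g.metric.w = v.2 := by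
    funext p
    unfold HypMetric.w
    rw [hThe, hU, hU]
    change Real.log (Real.exp (v.2 p) / (E (Sum.inl p) * E (Sum.inl (P.rho p)))) + _ + _ = _
    rw [Real.log_div (Real.exp_pos _).ne' (mul_pos (h1 _) (h1 _)).ne',
      Real.log_mul (h1 _).ne' (h1 _).ne', Real.log_exp]
    ring
  unfold HypMetric.lin
  rw [hl, hw]

end Run7.h705.MC
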