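import Pool.Agent.Run7.h705.MC.SURJ3
import Pool.Agent.Run7.h467.MC.DOM
import Pool.Agent.Run7.h568.MC.Gb
import Pool.Agent.Run7.h568.MC.LIN2

/-!
# Piece LQ: a translation in the direction of `w` is a left earthquake along `α`
-/

set_option linter.unusedSectionVars false

namespace Run7.h705.MC

open Real Matrix Run7.h568 Run7.h568.MC Run7.h568.MC.Pattern

universe u

variable {V : Type u} [Fintype V] {P : Pattern V}

theorem EG_iter {v : P.W} (e : EG v) (n : ℕ) : ∀ z : P.Z,
    e.E (ZA^[n] z) = CC v n z * e.E z + DC v n z := by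
  have h1 : ∀ z, e.E (ZA z) = cf v z * e.E z + df v z := by
    intro z
    unfold cf df
    split_ifs with h
    · rw [e.step z h]; ring
    · rw [e.flat z h]; ring
  induction n with
  | zero => intro z; simp [CC, DC]
  | succ n ih =>
    intro z
    rw [Function.iterate_succ_apply, ih (ZA z), h1]
    simp only [CC, DC]
    ring

theorem EG_unique {v : P.W} (hD : v ∈ Dom P) (e e' : EG v) : e.E = e'.E := by
  funext z
  have h1 := EG_iter e (per P) z
  have h2 := EG_iter e' (per P) z
  rw [ZA_per] at h1 h2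
  have hC : CC v (per P) z < 1 := by
    rw [CC_eq]
    have := hD z
    unfold cyc at this
    rw [← Real.exp_zero]
    exact Real.exp_lt_exp.2 this
  have h3 : (1 - CC v (per P) z) * (e.E z - e'.E z) = 0 := by linear_combination h1 - h2
  rcases mul_eq_zero.1 h3 with h | h
  · linarith
  · linarith

/-- the solution of the recursion given by a metric -/
noncomputable def metricEG (m : HypMetric P) (v : P.W) (hv : v.1 = m.lZ) : EG v where
  E z := Real.exp (m.U z)
  pos z := Real.exp_pos _
  step z hz := by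
    have h := (LIN1 (P := P) m (GA P m) (gb P m (GA P m))).2.1 z hz
    rw [h, Real.exp_add, Real.exp_log (by positivity), hv]
  flat z hz := by
    rw [(LIN1 (P := P) m (GA P m) (gb P m (GA P m))).2.2.1 z hz]

theorem hh_The {m : HypMetric P} (q : V) : m.The q = hh m q * hh m (P.rho q) := by
  have hg := GA P m
  unfold HypMetric.The hh
  rw [Run7.h568.MC.RR_eq, hg.t_rho]
  unfold HypMetric.TT
  ring

theorem g_det (m : HypMetric P) (p : V) : m.g p 0 0 * m.g p 1 1 - m.g p 0 1 * m.g p 1 0 = 1 := by
  rw [← Matrix.det_fin_two]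
  unfold Run7.h568.MC.HypMetric.g
  simp only [Matrix.det_mul, det_T, det_R, mul_one]

theorem lq : S_LQ P := by
  intro m m' a ha hlin
  have hg := GA P m
  have hg' := GA P m'
  have hz := gb P m hg
  have hz' := gb P m' hg'
  have hl : m'.lZ = m.lZ := congrArg Prod.fst hlin
  have hw : ∀ p, m'.w p = m.w p + a p := fun p => congrFun (congrArg Prod.snd hlin) p
  have hD : m.lin ∈ Dom P := (Run7.h568.MC.dom P).2.1 m
  have hU : ∀ z, m'.U z = m.U z := by
    intro z
    have h := congrFun (EG_unique hD (metricEG m m.lin rfl) (metricEG m' m.lin hl.symm)) z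
    exact (Real.exp_injective h).symm
  have hmuZ : ∀ z, m'.muZ z = m.muZ z := by
    intro z
    by_cases h : Zh z
    · rw [muZ_eq_exp_U hz h, muZ_eq_exp_U hz' h, hU]
    · rw [hz.muZ_quad z h, hz'.muZ_quad z h]
  have hmu : ∀ p, m'.mu p = m.mu p := by
    intro p
    by_cases hd : P.Diag p
    · rw [← hz.mu_split p hd, ← hz'.mu_split p hd, hmuZ, hmuZ]
    · have h1 : m.muZ (Sum.inl p) = m.mu p := if_neg hd
      have h2 : m'.muZ (Sum.inl p) = m'.mu p := if_neg hd
      rw [← h1, ← h2, hmuZ]
  have hLam : ∀ p, m'.Lam p = m.Lam p := by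
    intro p
    have h1 := congrFun hl (Sum.inl p)
    unfold HypMetric.lZ at h1
    rw [hU, hU] at h1
    have h2 : Real.log (m'.LamZ (Sum.inl p)) = Real.log (m.LamZ (Sum.inl p)) := by linarith
    exact Real.log_injOn_pos (hz'.LamZ_pos _) (hz.LamZ_pos _) h2
  have hThe : ∀ p, Real.log (m'.The p) = Real.log (m.The p) + a p := by
    intro p
    have h1 := hw p
    unfold HypMetric.w at h1
    rw [hU, hU] at h1
    linarith
  have hp := fun q => hh_pos hg q
  have hp' := fun q => hh_pos hg' q
  refine ⟨fun p => Real.log (hh m' (P.rho p)) - Real.log (hh m (P.rho p)), ?_, ?_, ?_⟩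
  · intro p
    beta_reduce
    rw [P.rho_rho]
    obtain ⟨k, hk, e1, e2, e3, e4⟩ := g_entries hg p
    obtain ⟨k', hk', f1, f2, f3, f4⟩ := g_entries hg' p
    have d1 := g_det m p
    have d2 := g_det m' p
    rw [e1, e2, e3, e4] at d1
    rw [f1, f2, f3, f4, hLam] at d2
    rw [hLam] at f4
    have hr := hp (P.rho p)
    have hb := hp (P.B p)
    have hr' := hp' (P.rho p)
    have hb' := hp' (P.B p)
    have hL : 0 < m.Lam (P.rho p) := hz.LamZ_pos (Sum.inl (P.rho p))
    obtain ⟨u, hu⟩ : ∃ u, u = Real.exp ((Real.log (hh m' (P.rho p)) -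
      Real.log (hh m (P.rho p))) / 2) := ⟨_, rfl⟩
    obtain ⟨v, hv⟩ : ∃ v, v = Real.exp ((Real.log (hh m' (P.B p)) -
      Real.log (hh m (P.B p))) / 2) := ⟨_, rfl⟩
    have hu0 : 0 < u := by rw [hu]; exact Real.exp_pos _
    have hv0 : 0 < v := by rw [hv]; exact Real.exp_pos _
    have hu2 : hh m' (P.rho p) = u * u * hh m (P.rho p) := by
      rw [hu, ← Real.exp_add, add_halves, Real.exp_sub, Real.exp_log hr', Real.exp_log hr]
      field_simp
    have hv2 : hh m' (P.B p) = v * v * hh m (P.B p) := by
      rw [hv, ← Real.exp_add, add_halves, Real.exp_sub, Real.exp_log hb', Real.exp_log hb]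
      field_simp
    obtain ⟨a1, a2, a3, a4⟩ := T_mul_entries (Real.log (hh m' (P.rho p)) -
      Real.log (hh m (P.rho p))) (m.g p)
    obtain ⟨b1, b2, b3, b4⟩ := mul_T_entries (Real.log (hh m' (P.B p)) -
      Real.log (hh m (P.B p))) (m'.g p)
    rw [Real.exp_neg, ← hu] at a3 a4
    rw [← hu] at a1 a2
    rw [Real.exp_neg, ← hv] at b1 b3
    rw [← hv] at b2 b4
    rw [hu2, hv2] at d2
    rw [hv2] at f2
    rw [hu2] at f3
    rw [hu2, hv2] at f4
    generalize hh m (P.rho p) = x at *
    generalize hh m (P.B p) = y at *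
    generalize m.Lam (P.rho p) = L at *
    have hkk : k' = k * u * v := by
      have h1 : k ^ 2 * L = x * y := by
        field_simp at d1
        linarith
      have h2 : k' ^ 2 * L = (u * u * x) * (v * v * y) := by
        field_simp at d2
        linear_combination d2
      have h3 : k' ^ 2 = (k * u * v) ^ 2 := by
        apply mul_right_cancel₀ hL.ne'
        rw [h2]
        linear_combination (-(u * v) ^ 2) * h1
      exact (sq_eq_sq₀ hk'.le (by positivity)).1 h3
    apply T_ext
    · rw [a1, b1, e1, f1, hkk]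
      field_simp
    · rw [a2, b2, e2, f2, hkk]
      field_simp
    · rw [a3, b3, e3, f3, hkk]
      field_simp
    · rw [a4, b4, e4, f4, hkk]
      field_simp
  · intro p
    beta_reduce
    rw [P.rho_rho]
    have e1 : P.rho (P.iota p) = P.A p := rfl
    rw [e1]
    have h1 := hmu p
    rw [mu_eq_hh, mu_eq_hh] at h1
    have h2 := hp p
    have h3 := hp (P.A p)
    have h4 := hp' p
    have h5 := hp' (P.A p)
    have h6 := congrArg Real.log h1
    rw [Real.log_div (by positivity) h5.ne', Real.log_div (by positivity) h3.ne',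
      Real.log_mul (Real.exp_pos _).ne' h4.ne', Real.log_mul (Real.exp_pos _).ne' h2.ne',
      Real.log_exp, Real.log_exp] at h6
    linarith
  · intro p
    beta_reduce
    rw [P.rho_rho]
    have h1 := hThe p
    rw [hh_The, hh_The, Real.log_mul (hp' _).ne' (hp' _).ne', Real.log_mul (hp _).ne' (hp _).ne']
      at h1
    linarith

end Run7.h705.MC
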