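import Pool.Agent.Run7.h568.MC.GA

/-!
# Piece SURJ, part 1: matrices
-/

namespace Run7.h705.MC

open Real Matrix Run7.h568 Run7.h568.MC Run7.h568.MC.Pattern

/-- the cosine of the half angle -/
noncomputable def ca (t : ℝ) : ℝ := cos (arctan t)

theorem ca_pos (t : ℝ) : 0 < ca t := Real.cos_arctan_pos t

theorem half_cos (t : ℝ) : cos (2 * arctan t / 2) = ca t := by
  rw [mul_div_cancel_left₀ _ (two_ne_zero)]; rfl

theorem half_sin (t : ℝ) : sin (2 * arctan t / 2) = t * ca t := by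
  rw [mul_div_cancel_left₀ _ (two_ne_zero)]
  have h := Real.tan_arctan t
  rw [Real.tan_eq_sin_div_cos, div_eq_iff (Real.cos_arctan_pos t).ne'] at h
  exact h

/-- the transport along a corner in normal form -/
theorem side_raw {x y t0 t1 S0 S1 E hp mu La : ℝ} (h0 : 0 < t0) (h1 : 0 < t1) (hE : 0 < E)
    (hS0 : 0 < S0) (hS1 : 0 < S1) (hhp : 0 < hp) (hEy : E = exp (-y) * t0 * t1)
    (e0 : (t0 ^ 2 - E) * S0 = 1 + E) (e1 : (t1 ^ 2 - E) * S1 = 1 + E)
    (hx : exp x * hp = mu * (t0 * S0)) (hL : (t0 ^ 2 * S0 - 1) * (S1 + 1) = La) :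
    ∃ k : ℝ, 0 < k ∧
      T x * (R (π - 2 * arctan t0) * T y * R (2 * arctan t1)) =
        k • (!![1 / hp, 0; 0, 1] * NN mu La * !![1, 0; 0, 1 / (t1 * S1)]) := by
  have c0 := ca_pos t0
  have c1 := ca_pos t1
  have f1 := Real.exp_pos (y / 2)
  have f2 := Real.exp_pos (x / 2)
  have hx2 : exp x = exp (x / 2) ^ 2 := by
    rw [← Real.exp_nat_mul]; congr 1; push_cast; ring
  have hx3 : exp (-(x / 2)) = (exp (x / 2))⁻¹ := Real.exp_neg _
  have hy3 : exp (-(y / 2)) = (exp (y / 2))⁻¹ := Real.exp_neg _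
  have hy2 : exp (-y) = (exp (y / 2))⁻¹ ^ 2 := by
    rw [← Real.exp_neg, ← Real.exp_nat_mul]
    congr 1
    push_cast
    ring
  rw [hx2] at hx
  rw [hy2] at hEy
  refine ⟨ca t0 * ca t1 * exp (y / 2) * (1 + E) * (exp (x / 2))⁻¹, by positivity, ?_⟩
  rw [RTR_h, half_cos, half_cos, half_sin, half_sin, hy3]
  generalize ca t0 = c at *
  generalize ca t1 = c' at *
  generalize exp (y / 2) = F at *
  obtain ⟨X, hXd⟩ : ∃ X, X = exp (x / 2) := ⟨_, rfl⟩
  rw [← hXd] at hx f2 hx3 ⊢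
  have hXd' := hXd.symm
  have hX := f2.ne'
  have hF := f1.ne'
  have n0 := h0.ne'
  have n1 := h1.ne'
  have nS0 := hS0.ne'
  have nS1 := hS1.ne'
  have nh := hhp.ne'
  have hmu : mu = X ^ 2 * hp / (t0 * S0) := by
    field_simp
    linarith
  -- `F⁻¹` in terms of `E`
  have hF2 : F⁻¹ = F * (E / (t0 * t1)) := by
    rw [hEy]
    field_simp
  have d0 : t0 ^ 2 - E ≠ 0 := by
    intro h; rw [h, zero_mul] at e0; linarith
  have d1 : t1 ^ 2 - E ≠ 0 := by
    intro h; rw [h, zero_mul] at e1; linarith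
  have hS0' : S0 = (1 + E) / (t0 ^ 2 - E) := by
    rw [eq_div_iff d0]; linarith
  have hS1' : S1 = (1 + E) / (t1 ^ 2 - E) := by
    rw [eq_div_iff d1]; linarith
  have hE1 : 1 + E ≠ 0 := by linarith
  rw [hmu, ← hL, hF2, hS0', hS1']
  ext i j
  fin_cases i <;> fin_cases j
  · simp [T, NN, Matrix.mul_apply, Fin.sum_univ_two, hx3, hXd']
    field_simp
  · simp [T, NN, Matrix.mul_apply, Fin.sum_univ_two, hx3, hXd']
    field_simp
    ring
  · simp [T, NN, Matrix.mul_apply, Fin.sum_univ_two, hx3, hXd']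
    field_simp
    ring
  · simp [T, NN, Matrix.mul_apply, Fin.sum_univ_two, hx3, hXd']
    field_simp
    ring

theorem NN_left {mu La : ℝ} (h : 0 < mu) (hL : 0 < La) : IsLeft (NN mu La) := by
  refine ⟨?_, ?_, ?_, ?_⟩ <;> simp [NN]
  · exact h
  · positivity

/-- a matrix in normal form is left if its core is -/
theorem normal_left {k a c : ℝ} (hk : 0 < k) (ha : 0 < a) (hc : 0 < c)
    {X : Matrix (Fin 2) (Fin 2) ℝ} (hX : IsLeft X) :
    IsLeft (k • (!![a, 0; 0, 1] * X * !![1, 0; 0, c])) := by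
  obtain ⟨f0, f1, f2, f3⟩ := HypMetric.normal_entries k a c X
  obtain ⟨g0, g1, g2, g3⟩ := hX
  refine ⟨?_, ?_, ?_, ?_⟩
  · rw [f0]; positivity
  · rw [f1]; positivity
  · rw [f2]; exact mul_neg_of_pos_of_neg hk g2
  · rw [f3]; exact mul_neg_of_pos_of_neg (mul_pos hk hc) g3

theorem close_raw {k h s : ℝ} (hk : 0 < k) (hh : 0 < h) (hs : 0 < s)
    {M X : Matrix (Fin 2) (Fin 2) ℝ} (hM : M = k • (!![1 / h, 0; 0, 1] * X * !![1, 0; 0, 1 / h]))
    (hX0 : X 0 0 = -s) (hX1 : X 0 1 = 0) (hX2 : X 1 0 = 0) (hX3 : X 1 1 = -s)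
    (hd : M.det = 1) : M = -1 := by
  obtain ⟨f0, f1, f2, f3⟩ := HypMetric.normal_entries k (1 / h) (1 / h) X
  rw [← hM] at f0 f1 f2 f3
  rw [hX0] at f0
  rw [hX1, mul_zero] at f1
  rw [hX2, mul_zero] at f2
  rw [hX3] at f3
  rw [Matrix.det_fin_two, f0, f1, f2, f3] at hd
  have hu : 0 < k * (1 / h) * s := by positivity
  have h1 : (k * (1 / h) * s) ^ 2 = 1 := by linear_combination hd
  have h2 : k * (1 / h) * s = 1 := by
    nlinarith
  ext i j
  fin_cases i <;> fin_cases j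
  · change M 0 0 = (-1 : Matrix (Fin 2) (Fin 2) ℝ) 0 0
    rw [f0, Matrix.neg_apply, Matrix.one_apply_eq]; linarith
  · change M 0 1 = (-1 : Matrix (Fin 2) (Fin 2) ℝ) 0 1
    rw [f1]; simp
  · change M 1 0 = (-1 : Matrix (Fin 2) (Fin 2) ℝ) 1 0
    rw [f2]; simp
  · change M 1 1 = (-1 : Matrix (Fin 2) (Fin 2) ℝ) 1 1
    rw [f3, Matrix.neg_apply, Matrix.one_apply_eq]; linarith

/-- `cross` is left -/
theorem cross_raw {x t t' : ℝ} (ht : 0 < t) (ht' : 0 < t') (h1 : t < exp x * t')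
    (h2 : t' < exp x * t) : IsLeft (R (2 * arctan t) * T x * R (π - 2 * arctan t')) := by
  have c0 := ca_pos t
  have c1 := ca_pos t'
  have f2 := Real.exp_pos (x / 2)
  have hx2 : exp x = exp (x / 2) ^ 2 := by
    rw [← Real.exp_nat_mul]; congr 1; push_cast; ring
  have hx3 : exp (-(x / 2)) = (exp (x / 2))⁻¹ := Real.exp_neg _
  rw [RTR_G, half_cos, half_cos, half_sin, half_sin, hx3]
  rw [hx2] at h1 h2
  generalize ca t = c at *
  generalize ca t' = c' at *
  generalize exp (x / 2) = X at *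
  have hcc := mul_pos c0 c1
  have hX : 0 < X⁻¹ := inv_pos.2 f2
  refine ⟨?_, ?_, ?_, ?_⟩
  · change 0 < c * (t' * c') * X - t * c * c' * X⁻¹
    have e : c * (t' * c') * X - t * c * c' * X⁻¹ = c * c' * X⁻¹ * (X ^ 2 * t' - t) := by
      field_simp
    rw [e]
    exact mul_pos (mul_pos hcc hX) (by linarith)
  · change 0 < c * c' * X + t * c * (t' * c') * X⁻¹
    positivity
  · change -(t * c * (t' * c') * X + c * c' * X⁻¹) < 0
    rw [neg_lt_zero]
    positivity
  · change c * (t' * c') * X⁻¹ - t * c * c' * X < 0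
    have e : c * (t' * c') * X⁻¹ - t * c * c' * X = c * c' * X⁻¹ * (t' - X ^ 2 * t) := by
      field_simp
    rw [e]
    exact mul_neg_of_pos_of_neg (mul_pos hcc hX) (by linarith)

/-! ### The faces in normal form -/

theorem NN_quad {L : ℝ} : ∀ X, X = NN 1 L * NN 1 L →
    X 0 0 = -L ∧ X 0 1 = 0 ∧ X 1 0 = 0 ∧ X 1 1 = -L := by
  rintro X rfl
  simp [NN, Matrix.mul_apply, Fin.sum_univ_two]

theorem NN_mul {a b c L M : ℝ} (ha : a ≠ 0) (hb : b ≠ 0) (hL : L = (1 - 1 / a) * (b - 1))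
    (hM : M = (1 - 1 / b) * (c - 1)) : NN a L * NN b M =
      (b - 1) • !![1, a * c - a + 1; -1, -c] := by
  subst hL hM
  ext i j
  fin_cases i <;> fin_cases j <;> simp [NN, Matrix.mul_apply, Fin.sum_univ_two] <;>
    field_simp <;> ring

theorem NN_hex {a b c L M N : ℝ} (ha : a ≠ 0) (hb : b ≠ 0) (hc : c ≠ 0)
    (hL : L = (1 - 1 / a) * (b - 1)) (hM : M = (1 - 1 / b) * (c - 1))
    (hN : N = (1 - 1 / c) * (a - 1)) : ∀ X, X = NN a L * NN b M * NN c N →
    X 0 0 = -((a - 1) * (b - 1) * (c - 1)) ∧ X 0 1 = 0 ∧ X 1 0 = 0 ∧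
      X 1 1 = -((a - 1) * (b - 1) * (c - 1)) := by
  rintro X rfl
  rw [NN_mul ha hb hL hM]
  subst hN
  refine ⟨?_, ?_, ?_, ?_⟩ <;> simp [NN, Matrix.mul_apply, Fin.sum_univ_two] <;>
    field_simp <;> ring

theorem NN_oct {a0 b0 m1 a2 b2 m3 L0 L1 L2 L3 : ℝ} (h0 : a0 ≠ 0) (h0' : b0 ≠ 0) (h1 : m1 ≠ 0)
    (h2 : a2 ≠ 0) (h2' : b2 ≠ 0) (h3 : m3 ≠ 0) (e0 : L0 = (1 - 1 / b0) * (m1 - 1))
    (e1 : L1 = (1 - 1 / m1) * (a2 - 1)) (e2 : L2 = (1 - 1 / b2) * (m3 - 1))
    (e3 : L3 = (1 - 1 / m3) * (a0 - 1)) (ed : (1 - 1 / a0) * (b2 - 1) = (1 - 1 / a2) * (b0 - 1)) :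
    ∀ X, X = NN (a0 * b0) L0 * NN m1 L1 * NN (a2 * b2) L2 * NN m3 L3 →
    X 0 0 = -((m1 - 1) * (m3 - 1) * (a0 * (a2 - 1) * (b0 - 1))) ∧ X 0 1 = 0 ∧ X 1 0 = 0 ∧
      X 1 1 = -((m1 - 1) * (m3 - 1) * (a0 * (a2 - 1) * (b0 - 1))) := by
  rintro X rfl
  have ed' : a2 * (a0 - 1) * (b2 - 1) = a0 * (a2 - 1) * (b0 - 1) := by
    field_simp at ed
    linarith
  have d : ∀ a b L : ℝ, NN (a * b) L = !![a, 0; 0, 1] * NN b L := by
    intro a b L
    ext i j
    fin_cases i <;> fin_cases j <;> simp [NN]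
    ring
  have e : NN (a0 * b0) L0 * NN m1 L1 * NN (a2 * b2) L2 * NN m3 L3 =
      (!![a0, 0; 0, 1] * (NN b0 L0 * NN m1 L1)) * (!![a2, 0; 0, 1] * (NN b2 L2 * NN m3 L3)) := by
    rw [d, d]
    simp only [Matrix.mul_assoc]
  rw [e, NN_mul h0' h1 e0 e1, NN_mul h2' h3 e2 e3]
  refine ⟨?_, ?_, ?_, ?_⟩ <;> simp [Matrix.mul_apply, Fin.sum_univ_two]
  · ring
  · linear_combination ((m1 - 1) * (m3 - 1) * a0) * ed'
  · ring
  · linear_combination (-(m1 - 1) * (m3 - 1)) * ed'

theorem NN_left_mul {m0 m1 L0 L1 : ℝ} (h0 : 0 < m0) (h1 : 1 + L0 < m1) (hL0 : 0 < L0)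
    (hL1 : 0 < L1) : IsLeft (NN m0 L0 * NN m1 L1) := by
  have h2 : m1 < m1 * (1 + L1) := by nlinarith
  refine ⟨?_, ?_, ?_, ?_⟩ <;> simp [NN, Matrix.mul_apply, Fin.sum_univ_two]
  · nlinarith
  · nlinarith
  · linarith
  · linarith

/-! ### Opposite `β`-sides of an octagon -/

theorem oct_beta {V : Type*} (P : Pattern V) (x y θ : V → ℝ) (θ_pos : ∀ p, 0 < θ p)
    (θ_lt : ∀ p, θ p < π) (r p : V) (hr : P.tau r = p) (hs : ∀ q, IsLeft (side P x y θ q))
    (h1 : IsLeft (side P x y θ r * side P x y θ p))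
    (h2 : IsLeft (side P x y θ p * side P x y θ (P.tau p)))
    (hc : side P x y θ r * side P x y θ p * side P x y θ (P.tau p) *
      side P x y θ (P.tau (P.tau p)) = -1) :
    IsLeft (cross P x θ p * T (y (P.iota p)) * cross P x θ (P.tau p)) := by
  set q := P.tau p with hq
  have cpos : ∀ p, 0 < cos (θ p / 2) := fun p => Real.cos_pos_of_mem_Ioo
    ⟨by linarith [θ_pos p, Real.pi_pos], by linarith [θ_lt p]⟩
  have spos : ∀ p, 0 < sin (θ p / 2) := fun p =>
    Real.sin_pos_of_pos_of_lt_pi (by linarith [θ_pos p]) (by linarith [θ_lt p, Real.pi_pos])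
  have hdet : (side P x y θ (P.tau q)).det = 1 := by
    unfold side
    simp only [Matrix.det_mul, det_T, det_R, mul_one]
  have h3 : IsLeft (side P x y θ r * side P x y θ p * side P x y θ q) :=
    IsLeft.of_mul_eq_neg_one (hs _) hdet hc
  -- the columns of `R (π - β)`
  have hRb : R (π - θ (P.iota q)) = !![sin (θ (P.iota q) / 2), cos (θ (P.iota q) / 2);
      -cos (θ (P.iota q) / 2), sin (θ (P.iota q) / 2)] := by
    have h : (π - θ (P.iota q)) / 2 = π / 2 - θ (P.iota q) / 2 := by ring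
    unfold R
    rw [h, Real.cos_pi_div_two_sub, Real.sin_pi_div_two_sub]
  have hvec : ∀ M : Matrix (Fin 2) (Fin 2) ℝ, IsLeft M → IsLeft (M * side P x y θ q) →
      IsLeft (M * T (x q) * R (π - θ (P.iota q))) := by
    intro M hM hMs
    have c' := cpos (P.tau q)
    have s' := spos (P.tau q)
    have cb := cpos (P.iota q)
    have sb := spos (P.iota q)
    have ey := Real.exp_pos (y (P.iota q) / 2)
    have a0 := hMs.vec0 c' s'
    have a1 := hMs.vec1 c' s'
    have b0 := (hM.mul_T (x q)).vec0 cb sb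
    have b1 := (hM.mul_T (x q)).vec1 cb sb
    -- side q * (c', s') = e^{y/2} * first column of T x * R (π - β)
    have hcol : ∀ i, side P x y θ q i 0 * cos (θ (P.tau q) / 2) +
        side P x y θ q i 1 * sin (θ (P.tau q) / 2) =
        exp (y (P.iota q) / 2) * (T (x q) * R (π - θ (P.iota q))) i 0 := by
      intro i
      have hsc := Real.sin_sq_add_cos_sq (θ (P.tau q) / 2)
      have e : side P x y θ q = (T (x q) * R (π - θ (P.iota q))) *
          (T (y (P.iota q)) * R (θ (P.tau q))) := by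
        unfold side
        simp only [Matrix.mul_assoc]
      rw [e]
      generalize T (x q) * R (π - θ (P.iota q)) = N
      simp only [Matrix.mul_apply, Fin.sum_univ_two, T, R, Matrix.of_apply, Matrix.cons_val',
        Matrix.cons_val_zero, Matrix.cons_val_one, Matrix.cons_val_fin_one]
      linear_combination (N i 0 * exp (y (P.iota q) / 2)) * hsc
    have hc0 : ∀ i, (M * T (x q) * R (π - θ (P.iota q))) i 0 * exp (y (P.iota q) / 2) =
        (M * side P x y θ q) i 0 * cos (θ (P.tau q) / 2) +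
        (M * side P x y θ q) i 1 * sin (θ (P.tau q) / 2) := by
      intro i
      rw [Matrix.mul_assoc, Matrix.mul_apply, Matrix.mul_apply (i := i) (k := 0),
        Matrix.mul_apply (i := i) (k := 1), Fin.sum_univ_two, Fin.sum_univ_two, Fin.sum_univ_two]
      have k0 := hcol 0
      have k1 := hcol 1
      linear_combination (-(M i 0)) * k0 + (-(M i 1)) * k1
    refine ⟨?_, ?_, ?_, ?_⟩
    · have := hc0 0
      rw [← this] at a0
      exact pos_of_mul_pos_left a0 ey.le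
    · rw [hRb]
      simp only [Matrix.mul_apply (M := M * T (x q)), Fin.sum_univ_two, Matrix.of_apply,
        Matrix.cons_val', Matrix.cons_val_zero, Matrix.cons_val_one, Matrix.cons_val_fin_one]
      exact b0
    · have := hc0 1
      rw [← this] at a1
      exact neg_of_mul_neg_left a1 ey.le
    · rw [hRb]
      simp only [Matrix.mul_apply (M := M * T (x q)), Fin.sum_univ_two, Matrix.of_apply,
        Matrix.cons_val', Matrix.cons_val_zero, Matrix.cons_val_one, Matrix.cons_val_fin_one]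
      exact b1
  have D1 := hvec _ (hs p) h2
  have D2 := hvec _ h1 h3
  set D := side P x y θ p * T (x q) * R (π - θ (P.iota q)) with hD
  set C := cross P x θ p * T (y (P.iota p)) * cross P x θ q with hC
  have C1 : C = R (θ p) * D := by
    rw [hC, hD]
    unfold cross side
    simp only [Matrix.mul_assoc]
    rfl
  have C2 : T (x r) * R (π - θ (P.iota r)) * T (y (P.iota r)) * C =
      side P x y θ r * side P x y θ p * T (x q) * R (π - θ (P.iota q)) := by
    have e : side P x y θ r = T (x r) * R (π - θ (P.iota r)) * T (y (P.iota r)) * R (θ p) := by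
      unfold side
      rw [hr]
      simp only [Matrix.mul_assoc]
    rw [e, C1, hD]
    simp only [Matrix.mul_assoc]
  have C3 : C = T (-(y (P.iota r))) * (R (-(π - θ (P.iota r))) * (T (-(x r)) *
      (side P x y θ r * side P x y θ p * T (x q) * R (π - θ (P.iota q))))) := by
    rw [← C2]
    have i1 : T (-(x r)) * T (x r) = 1 := by rw [T_mul, neg_add_cancel, T_zero]
    have i2 : R (-(π - θ (P.iota r))) * R (π - θ (P.iota r)) = 1 := by
      rw [R_mul, neg_add_cancel, R_zero]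
    have i3 : T (-(y (P.iota r))) * T (y (P.iota r)) = 1 := by rw [T_mul, neg_add_cancel, T_zero]
    calc C = T (-(y (P.iota r))) * T (y (P.iota r)) * C := by rw [i3, Matrix.one_mul]
      _ = T (-(y (P.iota r))) * (R (-(π - θ (P.iota r))) * R (π - θ (P.iota r))) *
          T (y (P.iota r)) * C := by rw [i2, Matrix.mul_one]
      _ = T (-(y (P.iota r))) * (R (-(π - θ (P.iota r))) * (T (-(x r)) * T (x r)) *
          R (π - θ (P.iota r))) * T (y (P.iota r)) * C := by rw [i1, Matrix.mul_one]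
      _ = _ := by simp only [Matrix.mul_assoc]
  have hRg : R (-(π - θ (P.iota r))) = !![sin (θ (P.iota r) / 2), -cos (θ (P.iota r) / 2);
      cos (θ (P.iota r) / 2), sin (θ (P.iota r) / 2)] := by
    have h : (-(π - θ (P.iota r))) / 2 = -(π / 2 - θ (P.iota r) / 2) := by ring
    unfold R
    rw [h, Real.cos_neg, Real.sin_neg, Real.cos_pi_div_two_sub, Real.sin_pi_div_two_sub, neg_neg]
  have D3 := D2.T_mul (-(x r))
  have row0 : ∀ j, 0 < (T (-(x r)) * (side P x y θ r * side P x y θ p * T (x q) *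
      R (π - θ (P.iota q)))) 0 j → (T (-(x r)) * (side P x y θ r * side P x y θ p * T (x q) *
      R (π - θ (P.iota q)))) 1 j < 0 → 0 < C 0 j := by
    intro j g0 g1
    rw [C3, hRg]
    generalize T (-(x r)) * (side P x y θ r * side P x y θ p * T (x q) *
      R (π - θ (P.iota q))) = N at g0 g1 ⊢
    have e : (T (-(y (P.iota r))) * (!![sin (θ (P.iota r) / 2), -cos (θ (P.iota r) / 2);
      cos (θ (P.iota r) / 2), sin (θ (P.iota r) / 2)] * N)) 0 j =
      exp (-(y (P.iota r)) / 2) * (sin (θ (P.iota r) / 2) * N 0 j -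
        cos (θ (P.iota r) / 2) * N 1 j) := by
      simp only [Matrix.mul_apply, Fin.sum_univ_two, T, Matrix.of_apply, Matrix.cons_val',
        Matrix.cons_val_zero, Matrix.cons_val_one, Matrix.cons_val_fin_one]
      ring
    rw [e]
    have k1 := mul_pos (spos (P.iota r)) g0
    have k2 := mul_neg_of_pos_of_neg (cpos (P.iota r)) g1
    exact mul_pos (Real.exp_pos _) (by linarith)
  have row1 : ∀ j, 0 < D 0 j → D 1 j < 0 → C 1 j < 0 := by
    intro j g0 g1
    have e : (R (θ p) * D) 1 j = -sin (θ p / 2) * D 0 j + cos (θ p / 2) * D 1 j := by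
      generalize D = N
      simp only [Matrix.mul_apply, Fin.sum_univ_two, R, Matrix.of_apply,
        Matrix.cons_val', Matrix.cons_val_zero, Matrix.cons_val_one, Matrix.cons_val_fin_one]
    rw [C1, e]
    have k1 := mul_pos (spos p) g0
    have k2 := mul_neg_of_pos_of_neg (cpos p) g1
    linarith
  exact ⟨row0 0 D3.1 D3.2.2.1, row0 1 D3.2.1 D3.2.2.2, row1 0 D1.1 D1.2.2.1,
    row1 1 D1.2.1 D1.2.2.2⟩

end Run7.h705.MC
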