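import Pool.Agent.Run7.h705.MC.SURJ1

/-!
# Piece SURJ, part 2: a metric from its gauge quantities
-/

namespace Run7.h705.MC

open Real Matrix Run7.h568 Run7.h568.MC Run7.h568.MC.Pattern

/-- gauge data -/
structure RG {V : Type*} [Fintype V] (P : Pattern V) where
  mu : V → ℝ
  Lam : V → ℝ
  R : V → ℝ
  S : V → ℝ
  R_gt : ∀ p, 1 < R p
  S_pos : ∀ p, 0 < S p
  Lam_pos : ∀ p, 0 < Lam p
  RS : ∀ p, (R p - 1) * (S (P.kap p) + 1) = Lam p
  Lam_kap : ∀ p, Lam (P.kap p) = Lam p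
  The_rho : ∀ p, R (P.rho p) * S p = R p * S (P.rho p)
  The_A : ∀ p, R (P.A p) * S (P.iota p) * mu p = R p * S (P.rho p) * mu (P.iota p)
  mu_quad : ∀ p, P.Quad p → mu p = 1
  mu_gt : ∀ p, ¬ P.Quad p → 1 + Lam p < mu p
  Lam_quad : ∀ p, P.Quad p → Lam (P.A p) = Lam p
  hex : ∀ p, P.Hex p → Lam (P.A p) = (1 - 1 / mu p) * (mu (P.tau p) - 1)
  oct : ∀ p, P.Diag p → ∃ a0 b0 a2 b2 : ℝ, 1 < a0 ∧ 1 < b0 ∧ 1 < a2 ∧ 1 < b2 ∧
    mu p = a0 * b0 ∧ mu (P.tau (P.tau p)) = a2 * b2 ∧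
    Lam (P.A p) = (1 - 1 / b0) * (mu (P.tau p) - 1) ∧
    Lam (P.A (P.tau p)) = (1 - 1 / mu (P.tau p)) * (a2 - 1) ∧
    Lam (P.A (P.tau (P.tau p))) = (1 - 1 / b2) * (mu (P.tau (P.tau (P.tau p))) - 1) ∧
    Lam (P.A (P.tau (P.tau (P.tau p)))) = (1 - 1 / mu (P.tau (P.tau (P.tau p)))) * (a0 - 1) ∧
    (1 - 1 / a0) * (b2 - 1) = (1 - 1 / a2) * (b0 - 1)

namespace RG

variable {V : Type*} [Fintype V] {P : Pattern V} (g : RG P)

theorem R_pos (p : V) : 0 < g.R p := by linarith [g.R_gt p]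

theorem mu_pos (p : V) : 0 < g.mu p := by
  by_cases h : P.Quad p
  · rw [g.mu_quad p h]; exact one_pos
  · linarith [g.mu_gt p h, g.Lam_pos p]

theorem R_lt (p : V) : g.R p < 1 + g.Lam p := by
  have h := g.RS p
  have h1 := g.R_gt p
  have h2 := g.S_pos (P.kap p)
  nlinarith

theorem nest_S_of {p : V} (h : g.R (P.iota p) < g.mu (P.iota p) * g.R (P.A (P.iota p))) :
    g.S p < g.mu p * g.S (P.A p) := by
  have h1 := g.The_A (P.iota p)
  have e1 : P.rho (P.iota p) = P.A p := rfl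
  rw [P.A_iota, P.iota_iota, e1] at h1
  rw [P.A_iota] at h
  have h2 := mul_pos (g.mu_pos (P.iota p)) (g.R_pos (P.rho p))
  have h3 := mul_pos (g.mu_pos p) (g.S_pos (P.A p))
  have h4 : g.S p * (g.mu (P.iota p) * g.R (P.rho p)) <
      g.mu p * g.S (P.A p) * (g.mu (P.iota p) * g.R (P.rho p)) := by
    have h5 := mul_lt_mul_of_pos_left h h3
    linarith
  exact lt_of_mul_lt_mul_right h4 h2.le

theorem nest_R_not {p : V} (h : ¬ P.Quad p) : g.R p < g.mu p * g.R (P.A p) := by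
  have h1 := g.R_lt p
  have h2 := g.mu_gt p h
  have h3 := g.R_gt (P.A p)
  have h4 := g.mu_pos p
  nlinarith

theorem nest_R_quad {p : V} (h : P.Quad p)
    (h1 : g.R (P.iota (P.tau p)) < g.mu (P.iota (P.tau p)) * g.R (P.A (P.iota (P.tau p)))) :
    g.R p < g.mu p * g.R (P.A p) := by
  have h2 := g.nest_S_of h1
  rw [g.mu_quad _ (P.quad_tau.2 h), one_mul, P.quad_A_kap h] at h2
  have h3 := g.RS p
  have h4 := g.RS (P.A p)
  rw [P.kap_A, g.Lam_quad p h, ← h3] at h4
  rw [g.mu_quad p h, one_mul]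
  have h5 := g.S_pos (P.tau p)
  have h6 := g.R_gt p
  have h7 := g.R_gt (P.A p)
  by_contra hc
  push Not at hc
  have h8 : (g.R (P.A p) - 1) * (g.S (P.tau p) + 1) < (g.R p - 1) * (g.S (P.kap p) + 1) :=
    calc (g.R (P.A p) - 1) * (g.S (P.tau p) + 1) < (g.R (P.A p) - 1) * (g.S (P.kap p) + 1) :=
          mul_lt_mul_of_pos_left (by linarith) (by linarith)
      _ ≤ (g.R p - 1) * (g.S (P.kap p) + 1) :=
          mul_le_mul_of_nonneg_right (by linarith) (by linarith)
  linarith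

theorem nest_R_B (r : V) (h : g.R r < g.mu r * g.R (P.A r)) :
    g.R (P.B r) < g.mu (P.B r) * g.R (P.A (P.B r)) := by
  by_cases hq : P.Quad (P.B r)
  · apply g.nest_R_quad hq
    have e : P.iota (P.tau (P.B r)) = r := P.B_inj hq
    rw [e]
    exact h
  · exact g.nest_R_not hq

theorem nest_R (p : V) : g.R p < g.mu p * g.R (P.A p) := by
  have hit : ∀ (n : ℕ) (r : V), g.R r < g.mu r * g.R (P.A r) →
      g.R (P.B^[n] r) < g.mu (P.B^[n] r) * g.R (P.A (P.B^[n] r)) := by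
    intro n
    induction n with
    | zero => exact fun r h => h
    | succ n ih =>
      intro r h
      rw [Function.iterate_succ_apply]
      exact ih _ (g.nest_R_B r h)
  obtain ⟨n, hn⟩ := P.beta_face' p
  obtain ⟨m, hm0, hm⟩ := P.B_bij.1.mem_periodicPts p
  have h1 : P.B^[m * (n + 1)] p = p := (hm.mul_const (n + 1))
  have hle : n ≤ m * (n + 1) := by nlinarith
  have h2 : m * (n + 1) = (m * (n + 1) - n) + n := by omega
  rw [h2, Function.iterate_add_apply] at h1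
  have h3 := hit (m * (n + 1) - n) _ (g.nest_R_not hn)
  rwa [h1] at h3

theorem nest_S (p : V) : g.S p < g.mu p * g.S (P.A p) := g.nest_S_of (g.nest_R _)

/-! ### angles and lengths -/

noncomputable def TT (p : V) : ℝ := g.R p / g.S p

noncomputable def EE (p : V) : ℝ := (g.R p - 1) / (g.S p + 1)

noncomputable def t (p : V) : ℝ := √(g.TT p)

noncomputable def y (p : V) : ℝ := Real.log (g.t p * g.t (P.B p) / g.EE (P.rho p))

noncomputable def x (p : V) : ℝ :=
  Real.log (g.mu p * (g.t (P.A p) * g.S (P.A p)) / (g.t p * g.S p))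

noncomputable def th (p : V) : ℝ := 2 * Real.arctan (g.t p)

theorem TT_pos (p : V) : 0 < g.TT p := div_pos (g.R_pos p) (g.S_pos p)

theorem EE_pos (p : V) : 0 < g.EE p :=
  div_pos (by linarith [g.R_gt p]) (by linarith [g.S_pos p])

theorem t_pos (p : V) : 0 < g.t p := Real.sqrt_pos.2 (g.TT_pos p)

theorem t_sq (p : V) : g.t p ^ 2 = g.TT p := Real.sq_sqrt (g.TT_pos p).le

theorem TT_rho (p : V) : g.TT (P.rho p) = g.TT p := by
  unfold TT
  rw [div_eq_div_iff (g.S_pos _).ne' (g.S_pos _).ne', g.The_rho p]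

theorem t_rho (p : V) : g.t (P.rho p) = g.t p := by unfold t; rw [g.TT_rho]

theorem t_iota (p : V) : g.t (P.iota p) = g.t (P.A p) := by rw [← P.rho_A, g.t_rho]

theorem t_sq_S (p : V) : g.t p ^ 2 * g.S p = g.R p := by
  rw [g.t_sq]
  unfold TT
  have := (g.S_pos p).ne'
  field_simp

theorem h_pos (p : V) : 0 < g.t p * g.S p := mul_pos (g.t_pos p) (g.S_pos p)

theorem EE_lt (p : V) : g.EE p < g.TT p := by
  unfold EE TT
  have h1 := g.R_gt p
  have h2 := g.S_pos p
  rw [div_lt_div_iff₀ (by linarith) h2]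
  nlinarith

theorem EE_kap (p : V) : g.EE (P.kap p) = g.EE p := by
  have h1 := g.RS p
  have h2 := g.RS (P.kap p)
  rw [P.kap_kap, g.Lam_kap, ← h1] at h2
  unfold EE
  have h3 := g.S_pos p
  have h4 := g.S_pos (P.kap p)
  rw [div_eq_div_iff (by linarith) (by linarith)]
  linarith

theorem TE (p : V) : (g.t p ^ 2 - g.EE p) * g.S p = 1 + g.EE p := by
  rw [g.t_sq]
  unfold TT EE
  have h2 := g.S_pos p
  have h3 : g.S p + 1 ≠ 0 := by linarith
  field_simp
  ring

theorem EE_y (p : V) : g.EE p = Real.exp (-(g.y (P.rho p))) * g.t p * g.t (P.kap p) := by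
  have h0 := g.t_pos p
  have h1 := g.t_pos (P.kap p)
  have h2 := g.EE_pos p
  unfold y
  rw [P.rho_rho, g.t_rho]
  have e : P.B (P.rho p) = P.kap p := rfl
  rw [e, Real.exp_neg, Real.exp_log (by positivity)]
  field_simp

theorem exp_x (p : V) : Real.exp (g.x p) * (g.t p * g.S p) =
    g.mu p * (g.t (P.A p) * g.S (P.A p)) := by
  have h0 := g.h_pos p
  have h1 := g.h_pos (P.A p)
  have h2 := g.mu_pos p
  unfold x
  rw [Real.exp_log (by positivity), div_mul_cancel₀ _ h0.ne']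

theorem y_pos (p : V) : 0 < g.y p := by
  unfold y
  apply Real.log_pos
  have h0 := g.EE_pos (P.rho p)
  rw [one_lt_div h0]
  have h1 := g.EE_lt (P.rho p)
  have h2 := g.EE_lt (P.B p)
  have h3 : g.EE (P.B p) = g.EE (P.rho p) := by rw [← P.kap_rho, g.EE_kap]
  rw [g.TT_rho, ← g.t_sq] at h1
  rw [h3, ← g.t_sq] at h2
  have h4 := g.t_pos p
  have h5 := g.t_pos (P.B p)
  have h6 : g.EE (P.rho p) ^ 2 < (g.t p * g.t (P.B p)) ^ 2 := by
    rw [mul_pow, sq (g.EE _)]
    exact mul_lt_mul'' h1 h2 h0.le h0.le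
  exact lt_of_pow_lt_pow_left₀ 2 (by positivity) h6

theorem x_pos (p : V) : 0 < g.x p := by
  unfold x
  apply Real.log_pos
  have h0 := g.h_pos p
  rw [one_lt_div h0]
  have h1 := g.nest_R p
  have h2 := g.nest_S p
  have h3 := g.mu_pos p
  have h4 := g.h_pos (P.A p)
  have e : ∀ q, (g.t q * g.S q) ^ 2 = g.R q * g.S q := by
    intro q
    rw [← g.t_sq_S q]; ring
  have h5 : (g.t p * g.S p) ^ 2 < (g.mu p * (g.t (P.A p) * g.S (P.A p))) ^ 2 := by
    rw [mul_pow (g.mu p), e, e]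
    have := mul_lt_mul'' h1 h2 (g.R_pos p).le (g.S_pos p).le
    linarith
  exact lt_of_pow_lt_pow_left₀ 2 (by positivity) h5

theorem x_iota (p : V) : g.x (P.iota p) = g.x p := by
  apply Real.exp_injective
  have h0 := g.h_pos p
  have h0' := g.h_pos (P.iota p)
  have h1 := g.exp_x p
  have h2 := g.exp_x (P.iota p)
  have h3 := g.The_A p
  rw [P.A_iota, g.t_rho] at h2
  have h4 := g.t_iota p
  rw [h4] at h0' h2
  have h6 := g.t_sq_S p
  have h7 := g.t_sq_S (P.A p)
  rw [← h6, ← h7] at h3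
  apply mul_right_cancel₀ (mul_pos h0 h0').ne'
  linear_combination (g.t p * g.S p) * h2 - (g.t (P.A p) * g.S (P.iota p)) * h1 - h3

theorem y_rho (p : V) : g.y (P.rho (P.B p)) = g.y p := by
  unfold y
  rw [P.B_rho_B, P.rho_rho, g.t_rho, g.t_rho]
  have h3 : g.EE (P.B p) = g.EE (P.rho p) := by rw [← P.kap_rho, g.EE_kap]
  rw [h3, mul_comm]

theorem th_pos (p : V) : 0 < g.th p := by
  unfold th
  have := Real.arctan_pos.2 (g.t_pos p)
  linarith

theorem th_lt (p : V) : g.th p < π := by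
  unfold th
  have := Real.arctan_lt_pi_div_two (g.t p)
  linarith

theorem side_eq (p : V) : ∃ k : ℝ, 0 < k ∧ side P g.x g.y g.th p =
    k • (!![1 / (g.t p * g.S p), 0; 0, 1] * NN (g.mu p) (g.Lam (P.A p)) *
      !![1, 0; 0, 1 / (g.t (P.tau p) * g.S (P.tau p))]) := by
  have hE : g.EE (P.A p) = Real.exp (-(g.y (P.iota p))) * g.t (P.A p) * g.t (P.tau p) := by
    rw [g.EE_y, P.rho_A, P.kap_A]
  have hE' : g.EE (P.tau p) = g.EE (P.A p) := by rw [← P.kap_A, g.EE_kap]
  have h1 := g.TE (P.tau p)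
  rw [hE'] at h1
  have h2 : (g.t (P.A p) ^ 2 * g.S (P.A p) - 1) * (g.S (P.tau p) + 1) = g.Lam (P.A p) := by
    rw [g.t_sq_S, ← g.RS, P.kap_A]
  obtain ⟨k, hk, e⟩ := side_raw (x := g.x p) (y := g.y (P.iota p)) (g.t_pos (P.A p))
    (g.t_pos (P.tau p)) (g.EE_pos (P.A p)) (g.S_pos (P.A p)) (g.S_pos (P.tau p)) (g.h_pos p)
    hE (g.TE (P.A p)) h1 (g.exp_x p) h2
  refine ⟨k, hk, ?_⟩
  rw [← e]
  unfold side th
  rw [g.t_iota]

theorem side_det (p : V) : (side P g.x g.y g.th p).det = 1 := by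
  unfold side
  simp only [Matrix.det_mul, det_T, det_R, mul_one]

theorem side_left (p : V) : IsLeft (side P g.x g.y g.th p) := by
  obtain ⟨k, hk, e⟩ := g.side_eq p
  rw [e]
  exact normal_left hk (one_div_pos.2 (g.h_pos _)) (one_div_pos.2 (g.h_pos _))
    (NN_left (g.mu_pos p) (g.Lam_pos _))

theorem quad (p : V) (hp : P.Quad p) :
    side P g.x g.y g.th p * side P g.x g.y g.th (P.tau p) = -1 := by
  obtain ⟨k0, hk0, e0⟩ := g.side_eq p
  obtain ⟨k1, hk1, e1⟩ := g.side_eq (P.tau p)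
  have e2 : P.tau (P.tau p) = p := hp
  have hh := g.h_pos p
  have hh1 := g.h_pos (P.tau p)
  have hM := congrArg₂ (fun A B : Matrix (Fin 2) (Fin 2) ℝ => A * B) e0 e1
  beta_reduce at hM
  rw [HypMetric.normal_mul, e2] at hM
  have hX := NN_quad (L := g.Lam p) (NN (g.mu p) (g.Lam (P.A p)) *
    NN (g.mu (P.tau p)) (g.Lam (P.A (P.tau p)))) (by
      rw [g.mu_quad p hp, g.mu_quad _ (P.quad_tau.2 hp), g.Lam_quad p hp, P.quad_A_kap hp,
        g.Lam_kap])
  refine close_raw (by positivity) hh (g.Lam_pos p) hM hX.1 hX.2.1 hX.2.2.1 hX.2.2.2 ?_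
  rw [Matrix.det_mul, g.side_det, g.side_det, one_mul]

theorem mu_gt_one {p : V} (h : ¬ P.Quad p) : 1 < g.mu p := by
  linarith [g.mu_gt p h, g.Lam_pos p]

theorem hexa (p : V) (hp : P.Hex p) :
    side P g.x g.y g.th p * side P g.x g.y g.th (P.tau p) *
      side P g.x g.y g.th (P.tau (P.tau p)) = -1 := by
  obtain ⟨k0, hk0, e0⟩ := g.side_eq p
  obtain ⟨k1, hk1, e1⟩ := g.side_eq (P.tau p)
  obtain ⟨k2, hk2, e2⟩ := g.side_eq (P.tau (P.tau p))
  have e3 : P.tau (P.tau (P.tau p)) = p := hp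
  have hh := g.h_pos p
  have hh1 := g.h_pos (P.tau p)
  have hh2 := g.h_pos (P.tau (P.tau p))
  have hM := congrArg₂ (fun A B : Matrix (Fin 2) (Fin 2) ℝ => A * B)
    (congrArg₂ (fun A B : Matrix (Fin 2) (Fin 2) ℝ => A * B) e0 e1) e2
  beta_reduce at hM
  rw [HypMetric.normal_mul, HypMetric.normal_mul, e3] at hM
  have q0 := P.not_quad_of_hex hp
  have m0 := g.mu_gt_one q0
  have m1 := g.mu_gt_one (fun h => q0 (P.quad_tau.1 h))
  have m2 := g.mu_gt_one (fun h => q0 (P.quad_tau.1 (P.quad_tau.1 h)))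
  have h2 := g.hex _ (P.hex_tau.2 (P.hex_tau.2 hp))
  rw [e3] at h2
  have hX := NN_hex (by linarith) (by linarith) (by linarith) (g.hex p hp)
    (g.hex _ (P.hex_tau.2 hp)) h2 _ rfl
  refine close_raw (s := (g.mu p - 1) * (g.mu (P.tau p) - 1) * (g.mu (P.tau (P.tau p)) - 1))
    (by positivity) hh ?_ hM hX.1 hX.2.1 hX.2.2.1 hX.2.2.2 ?_
  · exact mul_pos (mul_pos (by linarith) (by linarith)) (by linarith)
  · rw [Matrix.det_mul, Matrix.det_mul, g.side_det, g.side_det, g.side_det, one_mul, one_mul]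

theorem octa_diag (p : V) (hp : P.Diag p) :
    side P g.x g.y g.th p * side P g.x g.y g.th (P.tau p) *
      side P g.x g.y g.th (P.tau (P.tau p)) * side P g.x g.y g.th (P.tau (P.tau (P.tau p))) =
      -1 := by
  obtain ⟨k0, hk0, e0⟩ := g.side_eq p
  obtain ⟨k1, hk1, e1⟩ := g.side_eq (P.tau p)
  obtain ⟨k2, hk2, e2⟩ := g.side_eq (P.tau (P.tau p))
  obtain ⟨k3, hk3, e3⟩ := g.side_eq (P.tau (P.tau (P.tau p)))
  have e4 : P.tau (P.tau (P.tau (P.tau p))) = p := hp.oct.1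
  have hh := g.h_pos p
  have hh1 := g.h_pos (P.tau p)
  have hh2 := g.h_pos (P.tau (P.tau p))
  have hh3 := g.h_pos (P.tau (P.tau (P.tau p)))
  obtain ⟨a0, b0, a2, b2, ha0, hb0, ha2, hb2, f0, f2, l0, l1, l2, l3, ld⟩ := g.oct p hp
  have hM := congrArg₂ (fun A B : Matrix (Fin 2) (Fin 2) ℝ => A * B)
    (congrArg₂ (fun A B : Matrix (Fin 2) (Fin 2) ℝ => A * B)
    (congrArg₂ (fun A B : Matrix (Fin 2) (Fin 2) ℝ => A * B) e0 e1) e2) e3
  beta_reduce at hM
  rw [HypMetric.normal_mul, HypMetric.normal_mul, HypMetric.normal_mul, e4, f0, f2] at hM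
  have q0 := P.not_quad_of_oct hp.oct
  have m1 := g.mu_gt_one (fun h => q0 (P.quad_tau.1 h))
  have m3 := g.mu_gt_one (fun h => q0 (P.quad_tau.1 (P.quad_tau.1 (P.quad_tau.1 h))))
  have hX := NN_oct (by linarith) (by linarith) (by linarith) (by linarith) (by linarith)
    (by linarith) l0 l1 l2 l3 ld _ rfl
  refine close_raw (s := (g.mu (P.tau p) - 1) * (g.mu (P.tau (P.tau (P.tau p))) - 1) *
    (a0 * (a2 - 1) * (b0 - 1))) (by positivity) hh ?_ hM hX.1 hX.2.1 hX.2.2.1 hX.2.2.2 ?_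
  · exact mul_pos (mul_pos (by linarith) (by linarith)) (mul_pos (mul_pos (by linarith)
      (by linarith)) (by linarith))
  · rw [Matrix.det_mul, Matrix.det_mul, Matrix.det_mul, g.side_det, g.side_det, g.side_det,
      g.side_det, one_mul, one_mul, one_mul]

theorem octa (p : V) (hp : P.Oct p) :
    side P g.x g.y g.th p * side P g.x g.y g.th (P.tau p) *
      side P g.x g.y g.th (P.tau (P.tau p)) * side P g.x g.y g.th (P.tau (P.tau (P.tau p))) =
      -1 := by
  by_cases hd : P.Diag p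
  · exact g.octa_diag p hd
  · have h1 := g.octa_diag (P.tau p) ((P.diag_tau hp).2 hd)
    rw [hp.1] at h1
    have h2 : -(side P g.x g.y g.th (P.tau p) * side P g.x g.y g.th (P.tau (P.tau p)) *
        side P g.x g.y g.th (P.tau (P.tau (P.tau p)))) * side P g.x g.y g.th p = 1 := by
      rw [neg_mul, h1, neg_neg]
    have h3 := mul_eq_one_comm.1 h2
    rw [mul_neg] at h3
    have h4 := neg_eq_iff_eq_neg.1 h3
    rw [← h4]
    simp only [Matrix.mul_assoc]

theorem oct_left (p : V) (hp : P.Oct p) :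
    IsLeft (side P g.x g.y g.th p * side P g.x g.y g.th (P.tau p)) := by
  obtain ⟨k0, hk0, e0⟩ := g.side_eq p
  obtain ⟨k1, hk1, e1⟩ := g.side_eq (P.tau p)
  have hh1 := g.h_pos (P.tau p)
  rw [e0, e1, HypMetric.normal_mul]
  have q1 : ¬ P.Quad (P.tau p) := fun h => P.not_quad_of_oct hp (P.quad_tau.1 h)
  have h := g.mu_gt (P.tau p) q1
  have h2 : g.Lam (P.tau p) = g.Lam (P.A p) := by rw [← P.kap_A, g.Lam_kap]
  rw [h2] at h
  exact normal_left (by positivity) (one_div_pos.2 (g.h_pos _)) (one_div_pos.2 (g.h_pos _))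
    (NN_left_mul (g.mu_pos p) h (g.Lam_pos _) (g.Lam_pos _))

theorem cross_left (p : V) : IsLeft (cross P g.x g.th p) := by
  have h0 := g.h_pos p
  have hx := g.exp_x p
  have hR := g.nest_R p
  have hS := g.nest_S p
  have e1 := g.t_sq_S p
  have e2 := g.t_sq_S (P.A p)
  have t0 := g.t_pos p
  have t1 := g.t_pos (P.A p)
  have h := cross_raw (x := g.x p) t0 t1 (by
    refine lt_of_mul_lt_mul_right (a := g.t p * g.S p) ?_ h0.le
    have k1 : Real.exp (g.x p) * g.t (P.A p) * (g.t p * g.S p) = g.mu p * g.R (P.A p) := by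
      rw [← e2]
      linear_combination g.t (P.A p) * hx
    rw [k1]
    have k2 : g.t p * (g.t p * g.S p) = g.R p := by rw [← e1]; ring
    rw [k2]
    exact hR) (by
    refine lt_of_mul_lt_mul_right (a := g.t p * g.S p) ?_ h0.le
    have k1 : Real.exp (g.x p) * g.t p * (g.t p * g.S p) =
        g.t (P.A p) * g.t p * (g.mu p * g.S (P.A p)) := by
      linear_combination g.t p * hx
    rw [k1]
    have k2 : g.t (P.A p) * (g.t p * g.S p) = g.t (P.A p) * g.t p * g.S p := by ring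
    rw [k2]
    exact mul_lt_mul_of_pos_left hS (mul_pos t1 t0))
  unfold cross th
  rw [g.t_iota]
  exact h

/-- the metric with the given gauge quantities -/
noncomputable def metric : HypMetric P where
  x := g.x
  y := g.y
  θ := g.th
  x_pos := g.x_pos
  y_pos := g.y_pos
  θ_pos := g.th_pos
  θ_lt := g.th_lt
  x_iota := g.x_iota
  y_rho := g.y_rho
  θ_rho p := by unfold th; rw [g.t_rho]
  closes_quad := g.quad
  closes_hex := g.hexa
  closes_oct := g.octa
  alpha_left := g.side_left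
  beta_left := g.cross_left
  beta_left_oct p hp := by
    have e4 : P.tau (P.tau (P.tau (P.tau p))) = p := hp.1
    have hr : P.Oct (P.tau (P.tau (P.tau p))) := P.oct_tau.2 (P.oct_tau.2 (P.oct_tau.2 hp))
    have h1 := g.oct_left _ hr
    have h2 := g.octa _ hr
    rw [e4] at h1 h2
    exact oct_beta P g.x g.y g.th g.th_pos g.th_lt (P.tau (P.tau (P.tau p))) p e4 g.side_left h1
      (g.oct_left p hp) h2

theorem metric_t (p : V) : g.metric.t p = g.t p := by
  change Real.tan (2 * Real.arctan (g.t p) / 2) = g.t p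
  rw [mul_div_cancel_left₀ _ (two_ne_zero), Real.tan_arctan]

theorem metric_TT (p : V) : g.metric.TT p = g.t p ^ 2 := by
  unfold HypMetric.TT
  rw [g.metric_t]

theorem metric_EE (p : V) : g.metric.EE p = g.EE p := by
  unfold HypMetric.EE
  rw [g.metric_t, g.metric_t, g.EE_y]
  rfl

theorem metric_SS (p : V) : g.metric.SS p = g.S p := by
  unfold HypMetric.SS
  rw [g.metric_TT, g.metric_EE]
  have h := g.TE p
  have h1 := g.EE_lt p
  rw [← g.t_sq] at h1
  rw [div_eq_iff (by linarith)]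
  linarith

theorem metric_RR (p : V) : g.metric.RR p = g.R p := by
  rw [HypMetric.RR_eq, g.metric_t, g.metric_SS, g.t_sq_S]

theorem metric_mu (p : V) : g.metric.mu p = g.mu p := by
  unfold HypMetric.mu
  rw [g.metric_t, g.metric_t, g.metric_SS, g.metric_SS]
  have h := g.exp_x p
  have h1 := g.h_pos (P.A p)
  rw [div_eq_iff h1.ne']
  exact h

theorem metric_Lam (p : V) : g.metric.Lam p = g.Lam p := by
  unfold HypMetric.Lam
  rw [g.metric_RR, g.metric_SS, g.RS]

theorem metric_The (p : V) : g.metric.The p = g.R p * g.S (P.rho p) := by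
  unfold HypMetric.The
  rw [g.metric_RR, g.metric_SS]

end RG

end Run7.h705.MC
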